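import Mathlib
import Pool.Agent.Q305.MaxChain

/-!
# MP_43ca77_lc: a partial order all of whose cofinal subsets have a maximal chain of size `ℵ_ω`

Let `(E_ξ)` be `ℵ_(ω+1)` many disjoint stationary subsets of `W = ω_(ω+1)`, and let `P_ξ` be the
set of all nonempty closed bounded subsets of `W` which are disjoint from `E_ξ`, ordered by
end-extension. Chains of `P_ξ` have size at most `ℵ_ω`, as `E_ξ` is stationary. For at least one
`ξ`, in every cofinal subset `Q` of `P_ξ` there are, above each element of `Q` and for each `n`,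
chains of size `ℵ_n` which are bounded in `Q`.
-/

set_option autoImplicit false

namespace Pool.Agent.Results.MP_43ca77_lc.SingularMaximalChains

open Cardinal Set Pool.Agent.Q305.St Pool.Agent.Q305.MaxChain

/-- `M` is a maximal chain of `Q`: a subset of `Q` which is linearly ordered by `≤` and not properly
contained in any other such subset. -/
def IsMaximalChainOf {P : Type} [PartialOrder P] (Q M : Set P) : Prop :=
  M ⊆ Q ∧ IsChain (· ≤ ·) M ∧ ∀ M' : Set P, M' ⊆ Q → IsChain (· ≤ ·) M' → M ⊆ M' → M' = M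

/-- Regular cardinals; finite cardinals count as regular. -/
def IsRegularOrFinite (c : Cardinal.{0}) : Prop := c < ℵ₀ ∨ c.IsRegular

/-- Property (R): every maximal chain of `Q` has regular cardinality. -/
def PropertyR {P : Type} [PartialOrder P] (Q : Set P) : Prop :=
  ∀ M : Set P, IsMaximalChainOf Q M → IsRegularOrFinite #M

/-! ### the partial order -/

/-- `ω_(ω+1)` -/
abbrev W : Type := Car (ℵ_ (Ordinal.omega0))

theorem hlam : ℵ₀ ≤ ℵ_ (Ordinal.omega0) := aleph0_le_aleph _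

/-- the index sets -/
abbrev J (n : ℕ) : Type := WithTop (ℵ_ (n : Ordinal.{0})).ord.ToType

theorem mk_J (n : ℕ) : #(J n) = ℵ_ (n : Ordinal.{0}) := by
  have h : #(J n) = #(Option (ℵ_ (n : Ordinal.{0})).ord.ToType) := rfl
  rw [h, Cardinal.mk_option, Cardinal.mk_ord_toType]
  exact Cardinal.add_one_eq (aleph0_le_aleph _)

theorem aleph_lt (n : ℕ) : ℵ_ (n : Ordinal.{0}) < ℵ_ (Ordinal.omega0) :=
  aleph_lt_aleph.2 (Ordinal.natCast_lt_omega0 n)

/-- `P_E`: all nonempty closed bounded subsets of `ω_(ω+1)` which are disjoint from `E` -/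
structure Node (E : Set W) where
  /-- the set -/
  val : Set W
  adm : Adm E val

theorem Node.ext' {E : Set W} {p q : Node E} (h : p.val = q.val) : p = q := by
  cases p
  cases q
  cases h
  rfl

/-- the order on `P_E` -/
instance (E : Set W) : PartialOrder (Node E) where
  le p q := End p.val q.val
  le_refl p := End.refl _
  le_trans p q r h1 h2 := h1.trans h2
  le_antisymm p q h1 h2 := Node.ext' (h1.antisymm h2)

theorem le_def {E : Set W} (p q : Node E) : p ≤ q ↔ End p.val q.val := Iff.rfl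

/-- the good index -/
theorem exists_good : ∃ E : Set W, Stat E ∧ Nonempty (Node E) ∧
    ∀ Q : Set (Set W), (∀ q ∈ Q, Adm E q) →
    (∀ p, Adm E p → ∃ q ∈ Q, End p q) → ∀ q0 ∈ Q, ∀ n : ℕ, ∃ F : J n → Set W,
      (∀ i, F i ∈ Q ∧ End q0 (F i)) ∧ ∀ i j, j < i → End (F j) (F i) ∧ F j ≠ F i := by
  classical
  obtain ⟨T, hT, hdisj⟩ := exists_stat (W := W) hlam (bounded_car hlam) mk_Iio_car (mk_car _)
  have hnt : Nontrivial W := by
    rw [← Cardinal.one_lt_iff_nontrivial, mk_car]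
    exact (Cardinal.one_lt_aleph0.trans_le hlam).trans (Order.lt_succ _)
  have hunb : ∀ ξ : W, ∀ a : W, ∃ b, a < b ∧ b ∉ T ξ := by
    intro ξ a
    obtain ⟨ζ, hζ⟩ := exists_ne ξ
    obtain ⟨c, hc, hac, -⟩ := hT ζ id a
    exact ⟨c, hac, Set.disjoint_left.1 (hdisj _ _ hζ) hc⟩
  have hnode : ∀ ξ : W, Nonempty (Node (T ξ)) := by
    intro ξ
    obtain ⟨b, -, hb⟩ := hunb ξ ξ
    refine ⟨⟨{b}, ⟨b, rfl⟩, ⟨b, fun x hx => le_of_eq hx⟩, ?_, ?_⟩⟩
    · intro S hS hne x hx
      obtain ⟨s, hs⟩ := hne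
      have h1 : s = b := hS hs
      subst h1
      exact le_antisymm (hx.2 fun y hy => le_of_eq (hS hy)) (hx.1 hs)
    · rw [Set.disjoint_singleton_left]
      exact hb
  by_contra hcon
  have hcon' : ∀ ξ : W, ∃ (Q : Set (Set W)) (q0 : Set W) (n : ℕ), (∀ q ∈ Q, Adm (T ξ) q) ∧
      (∀ p, Adm (T ξ) p → ∃ q ∈ Q, End p q) ∧ q0 ∈ Q ∧ ¬ ∃ F : J n → Set W,
        (∀ i, F i ∈ Q ∧ End q0 (F i)) ∧ ∀ i j, j < i → End (F j) (F i) ∧ F j ≠ F i := by
    intro ξ
    by_contra h
    push Not at h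
    refine hcon ⟨T ξ, hT ξ, hnode ξ, fun Q h1 h2 q0 h3 n => ?_⟩
    exact h Q q0 n h1 h2 h3
  choose Q q0 n hQ hcof hq0 hbad using hcon'
  obtain ⟨m, hm⟩ : ∃ m : ℕ, ¬ #(n ⁻¹' {m}) ≤ ℵ_ (Ordinal.omega0) := by
    by_contra h
    push Not at h
    have h2 : #(Set.univ : Set W) ≤ ℵ_ (Ordinal.omega0) := by
      have h3 : (Set.univ : Set W) = ⋃ m, n ⁻¹' {m} := by
        ext x; simp
      rw [h3]
      refine (Cardinal.mk_iUnion_le_sum_mk).trans ?_
      refine (Cardinal.sum_le_sum _ (fun _ => ℵ_ (Ordinal.omega0)) fun m => h m).trans ?_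
      rw [Cardinal.sum_const', Cardinal.mk_nat]
      exact (mul_le_mul' hlam le_rfl).trans (Cardinal.mul_eq_self hlam).le
    rw [Cardinal.mk_univ, mk_car] at h2
    exact absurd h2 (not_le.2 (Order.lt_succ _))
  obtain ⟨X, hX1, hX2⟩ : ∃ X : Set W, X ⊆ n ⁻¹' {m} ∧ #X = ℵ_ ((m + 1 : ℕ) : Ordinal.{0}) :=
    Cardinal.le_mk_iff_exists_subset.1 ((aleph_lt (m + 1)).le.trans (not_le.1 hm).le)
  obtain ⟨ξ, F, hF1, hF2⟩ := exists_long (W := W) hlam (bounded_car hlam) (X := X) (J := J m)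
    (by
      rw [mk_J, hX2]
      exact aleph_lt_aleph.2 (by exact_mod_cast Nat.lt_succ_self m))
    (by rw [hX2]; exact (aleph_lt (m + 1)).le) (fun ξ => T ξ.1)
    (fun ξ ζ hne => hdisj _ _ fun e => hne (Subtype.ext e))
    (fun ξ => hunb ξ.1)
    (fun ξ => Q ξ.1) (fun ξ => hQ ξ.1) (fun ξ => hcof ξ.1) (fun ξ => q0 ξ.1) (fun ξ => hq0 ξ.1)
  have h1 := hbad ξ.1
  have h2 : n ξ.1 = m := hX1 ξ.2
  rw [h2] at h1
  exact h1 ⟨F, hF1, hF2⟩

theorem exists_maximal {P : Type} [PartialOrder P] (Q C : Set P) (hC : C ⊆ Q)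
    (hC' : IsChain (· ≤ ·) C) : ∃ M, C ⊆ M ∧ IsMaximalChainOf Q M := by
  obtain ⟨M, hCM, hM⟩ := zorn_subset_nonempty {M : Set P | M ⊆ Q ∧ IsChain (· ≤ ·) M} (by
    intro c hc hch _
    refine ⟨⋃₀ c, ⟨sUnion_subset fun s hs => (hc hs).1, ?_⟩, fun s hs => subset_sUnion_of_mem hs⟩
    rintro x ⟨s, hs, hx⟩ y ⟨t, ht, hy⟩ hne
    rcases hch.total hs ht with h | h
    · exact (hc ht).2 (h hx) hy hne
    · exact (hc hs).2 hx (h hy) hne) C ⟨hC, hC'⟩
  refine ⟨M, hCM, hM.prop.1, hM.prop.2, fun M' h1 h2 h3 => ?_⟩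
  exact Subset.antisymm (hM.le_of_ge ⟨h1, h2⟩ h3) h3

theorem not_regular : ¬ IsRegularOrFinite (ℵ_ (Ordinal.omega0)) := by
  rintro (h | h)
  · exact absurd h (not_lt.2 hlam)
  · have h1 := h.cof_ord
    rw [ord_aleph, Ordinal.cof_omega Ordinal.isSuccLimit_omega0, Ordinal.cof_omega0] at h1
    have h2 : ℵ₀ < ℵ_ (Ordinal.omega0) := by
      rw [← aleph_zero]
      exact aleph_lt_aleph.2 Ordinal.omega0_pos
    exact absurd h1 h2.ne

/-- There is a partially ordered set such that each of its cofinal subsets has a maximal chain of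
the singular cardinality `ℵ_ω`; so no cofinal subset has property (R). -/
theorem result : ∃ (P : Type) (_ : PartialOrder P), ∀ Q : Set P, IsCofinal Q →
    (∃ M : Set P, IsMaximalChainOf Q M ∧ #M = ℵ_ (Ordinal.omega0)) ∧ ¬ PropertyR Q := by
  classical
  obtain ⟨E, hE, ⟨p0⟩, hgood⟩ := exists_good
  refine ⟨Node E, inferInstance, fun Q hQ => ?_⟩
  have hmain : ∃ M : Set (Node E), IsMaximalChainOf Q M ∧ #M = ℵ_ (Ordinal.omega0) := by
    have hgood' := hgood (Node.val '' Q) (by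
      rintro _ ⟨q, _, rfl⟩
      exact q.adm) (by
      intro p hp
      obtain ⟨q, hq, hpq⟩ := hQ ⟨p, hp⟩
      exact ⟨q.val, ⟨q, hq, rfl⟩, hpq⟩)
    have hstep : ∀ (q : Q) (n : ℕ), ∃ (C : Set (Node E)) (q' : Q), C ⊆ Q ∧
        IsChain (· ≤ ·) C ∧ ℵ_ (n : Ordinal.{0}) ≤ #C ∧ (∀ c ∈ C, q.1 ≤ c) ∧
        ∀ c ∈ C, c ≤ q'.1 := by
      intro q n
      obtain ⟨F, hF1, hF2⟩ := hgood' q.1.val ⟨q.1, q.2, rfl⟩ n
      have hG : ∀ i, ∃ p : Node E, p ∈ Q ∧ p.val = F i := by
        intro i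
        obtain ⟨p, hp, e⟩ := (hF1 i).1
        exact ⟨p, hp, e⟩
      choose G hG1 hG2 using hG
      have hG3 : ∀ i j, j < i → G j < G i := by
        intro i j hji
        obtain ⟨h1, h2⟩ := hF2 i j hji
        refine lt_of_le_of_ne ((le_def _ _).2 (by rw [hG2, hG2]; exact h1)) fun e => h2 ?_
        rw [← hG2, ← hG2, e]
      have hG4 : StrictMono G := fun j i hji => hG3 i j hji
      let G' : (ℵ_ (n : Ordinal.{0})).ord.ToType → Node E := fun i => G (WithTop.some i)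
      have hG'inj : Function.Injective G' := fun i j h =>
        WithTop.coe_injective (hG4.injective h)
      refine ⟨range G', ⟨G ⊤, hG1 _⟩, ?_, ?_, ?_, ?_, ?_⟩
      · rintro _ ⟨i, rfl⟩
        exact hG1 _
      · rintro _ ⟨i, rfl⟩ _ ⟨j, rfl⟩ _
        rcases le_total (WithTop.some i) (WithTop.some j) with h | h
        · exact Or.inl (hG4.monotone h)
        · exact Or.inr (hG4.monotone h)
      · rw [Cardinal.mk_range_eq _ hG'inj, Cardinal.mk_ord_toType]
      · rintro _ ⟨i, rfl⟩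
        show q.1 ≤ G (WithTop.some i)
        rw [le_def, hG2]
        exact (hF1 _).2
      · rintro _ ⟨i, rfl⟩
        exact hG4.monotone le_top
    choose C q' hC1 hC2 hC3 hC4 hC5 using hstep
    obtain ⟨s0, hs0, -⟩ := hQ p0
    let s : ℕ → Q := fun n => Nat.rec ⟨s0, hs0⟩ (fun n q => q' q n) n
    have hs : ∀ n, s (n + 1) = q' (s n) n := fun n => rfl
    have hsC : ∀ n, ∀ c ∈ C (s n) n, (s n).1 ≤ c := fun n c hc => hC4 _ _ c hc
    have hsC' : ∀ n, ∀ c ∈ C (s n) n, c ≤ (s (n + 1)).1 := fun n c hc => by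
      rw [hs]
      exact hC5 _ _ c hc
    have hne : ∀ n, (C (s n) n).Nonempty := by
      intro n
      by_contra h
      rw [not_nonempty_iff_eq_empty] at h
      have h1 := hC3 (s n) n
      rw [h, Cardinal.mk_eq_zero] at h1
      exact absurd h1 (not_le.2 (Cardinal.aleph0_pos.trans_le (aleph0_le_aleph _)))
    have hsmono : Monotone fun n => (s n).1 := by
      refine monotone_nat_of_le_succ fun n => ?_
      obtain ⟨c, hc⟩ := hne n
      exact (hsC n c hc).trans (hsC' n c hc)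
    obtain ⟨M, hCM, hM⟩ := exists_maximal Q (⋃ n, C (s n) n)
      (iUnion_subset fun n => hC1 _ _) (by
        rintro x hx y hy hxy
        obtain ⟨m, hx⟩ := mem_iUnion.1 hx
        obtain ⟨n, hy⟩ := mem_iUnion.1 hy
        rcases lt_trichotomy m n with h | rfl | h
        · exact Or.inl ((hsC' m x hx).trans ((hsmono h).trans (hsC n y hy)))
        · exact hC2 _ _ hx hy hxy
        · exact Or.inr ((hsC' n y hy).trans ((hsmono h).trans (hsC m x hx))))
    refine ⟨M, hM, le_antisymm ?_ ?_⟩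
    · have h1 : #(Node.val '' M) ≤ ℵ_ (Ordinal.omega0) := by
        refine chain_small (mk_Iic_car hlam) hE _ ?_ ?_
        · rintro _ ⟨p, _, rfl⟩
          exact p.adm
        · rintro _ ⟨p, hp, rfl⟩ _ ⟨q, hq, rfl⟩
          exact hM.2.1.total hp hq
      rwa [Cardinal.mk_image_eq (fun p q h => Node.ext' h)] at h1
    · rw [Cardinal.aleph_limit Ordinal.isSuccLimit_omega0]
      refine ciSup_le' fun a => ?_
      obtain ⟨n, hn⟩ := Ordinal.lt_omega0.1 a.2
      rw [hn]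
      exact (hC3 (s n) n).trans (Cardinal.mk_le_mk_of_subset
        ((subset_iUnion (fun n => C (s n) n) n).trans hCM))
  refine ⟨hmain, fun hR => ?_⟩
  obtain ⟨M, hM1, hM2⟩ := hmain
  have := hR M hM1
  rw [hM2] at this
  exact not_regular this

end Pool.Agent.Results.MP_43ca77_lc.SingularMaximalChains
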